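import Pool.Agent.H763.Fin
import Pool.Graph.R_pool_sql_team_ae5b0c61.Results.MP_a283c1_gt.NotSurjective

/-!
# The map from virtual pure braids to virtual string links up to self-virtualization

`Diagram`, `WF`, `Move`, `MoveSV`, `EqvSV`, `Mono` are the definitions of the library modules
`Pool.Graph.R_pool_sql_team_ae5b0c61.H85.GaussDefs` and `GaussSV`: Gauss diagrams of virtual string
links, all oriented R1, R2 and R3 moves, self-virtualization, monotone diagrams.

The map from `vP_n^sv` to `vSL_n^sv` is surjective if and only if `n ≤ 3`. The case `n ≥ 4` is the
library result `Pool.Agent.Results.MP_a283c1_gt.NotSurjective.result`; the case `n ≤ 2` is known.
New is `n = 3`: every virtual string link with three strands is monotone up to self-virtualization.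

Proof for three strands. Adjacent passages of a strand whose partners lie on one other strand
commute up to self-virtualization. Passages of strand 3 can be permuted at the cost of new crossings
of strands 1 and 2, so every diagram is given by a word `B` in crossings of strands 2 and 3, met in
the same order along both strands, and a word `w` of crossings of strand 1 with the two other ones,
each at a level of `B`. Words `w` modulo those pairs that can be exchanged in every word form a group
`G B`; R3 gives one relation for each crossing in `B`. In the group of the zigzag `B B⁻¹ B` the
letters of one level in the first and in the third pass differ by a central element, inverse to each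
other for the two kinds of letters. Hence a word which is balanced at each level but the lowest one
can be split off from the rest of the word as a factor in the stacking product. The group of balanced
words is generated by letters of level zero and words without letters of level zero, and induction
on the length of `B` applies.
-/

namespace Pool.Agent.Results.MP_a283c1_gt.IffAtMostThree

open Pool.Agent.H85.Gauss

/-- Every `n`-strand virtual string link is equivalent, up to the generalized Reidemeister moves and
self-virtualization, to a monotone diagram if and only if `n ≤ 3`. -/
theorem result (n : ℕ) :
    (∀ D : Diagram, WF n D → ∃ β : Diagram, WF n β ∧ Mono β ∧ EqvSV n D β) ↔ n ≤ 3 := by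
  constructor
  · intro h
    by_contra hn
    obtain ⟨D, h1, h2⟩ := Pool.Agent.Results.MP_a283c1_gt.NotSurjective.result n (by omega)
    obtain ⟨β, h3, h4, h5⟩ := h D h1
    exact h2 β h3 h4 h5
  · intro hn D hD
    exact Pool.Agent.H763.SV3.at_most_three hn hD

end Pool.Agent.Results.MP_a283c1_gt.IffAtMostThree
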